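import Pool.Agent.Q280.JHK.Main

/-!
# MP_2c585b_nt, Q1: the two exponential sums agree

For a finite field `K` with `2 ^ n` elements and `k` coprime to `n`, the sum of
`(-1) ^ Tr (x ^ (2 ^ k + 1) + x⁻¹)` over the nonzero `x` equals the same sum for `k = 1`.

Idea: the operator `T (x, y) = χ (1 / x + x y)` is a quantised integrable (QRT) map. After adding
three boundary points it commutes with a family `K z` of operators which commute with each other,
are symmetric up to a scalar, and have one dimensional joint eigenspaces with a canonical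
normalisation. The Frobenius permutes the canonical eigenvectors, so the trace of
`Frobenius ^ k ∘ T`, which is the exponential sum, only depends on the fixed eigenvectors.
-/

set_option linter.unusedSectionVars false

namespace Pool.Agent.Results.MP_2c585b_nt.CubeIdentity

open Pool.Agent.Q280.JHK

/-- `Tr x = x + x ^ 2 + ⋯ + x ^ (2 ^ (n - 1))`, an element of the field which is `0` or `1`. -/
def Tr {K : Type*} [Field K] (n : ℕ) (x : K) : K := ∑ i ∈ Finset.range n, x ^ (2 ^ i)

open Classical in
/-- `(-1) ^ Tr x` -/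
noncomputable def sgn {K : Type*} [Field K] (n : ℕ) (x : K) : ℤ := if Tr n x = 0 then 1 else -1

section

variable {K : Type*} [Field K] [Fintype K] [CharP K 2]

theorem Tr_add (n : ℕ) (x y : K) : Tr n (x + y) = Tr n x + Tr n y := by
  unfold Tr
  rw [← Finset.sum_add_distrib]
  apply Finset.sum_congr rfl
  intro i _
  exact add_pow_char_pow ..

theorem Tr_sq (n : ℕ) (x : K) : Tr n (x ^ 2) = (Tr n x) ^ 2 := by
  unfold Tr
  rw [sum_pow_char 2]
  apply Finset.sum_congr rfl
  intro i _
  rw [← pow_mul, ← pow_mul, mul_comm]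

theorem Tr_sq' {n : ℕ} (hn : Fintype.card K = 2 ^ n) (x : K) : Tr n (x ^ 2) = Tr n x := by
  unfold Tr
  have h1 : ∑ i ∈ Finset.range n, (x ^ 2) ^ (2 ^ i) = ∑ i ∈ Finset.range n, x ^ (2 ^ (i + 1)) := by
    apply Finset.sum_congr rfl
    intro i _
    rw [← pow_mul, pow_succ, mul_comm (2 ^ i) 2]
  rw [h1]
  have h2 := Finset.sum_range_succ (fun i => x ^ (2 ^ i)) n
  have h3 := Finset.sum_range_succ' (fun i => x ^ (2 ^ i)) n
  have h4 : x ^ (2 ^ n) = x := by rw [← hn, FiniteField.pow_card]
  rw [h2] at h3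
  simp only [pow_zero, pow_one] at h3
  rw [h4] at h3
  exact (add_right_cancel h3).symm

theorem Tr_mem {n : ℕ} (hn : Fintype.card K = 2 ^ n) (x : K) : Tr n x = 0 ∨ Tr n x = 1 := by
  have h1 := Tr_sq n x
  rw [Tr_sq' hn] at h1
  have h2 : Tr n x * (Tr n x - 1) = 0 := by linear_combination -h1
  rcases mul_eq_zero.mp h2 with h | h
  · left; exact h
  · right; exact sub_eq_zero.mp h

theorem sgn_add {n : ℕ} (hn : Fintype.card K = 2 ^ n) (x y : K) :
    sgn n (x + y) = sgn n x * sgn n y := by
  unfold sgn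
  rw [Tr_add]
  rcases Tr_mem hn x with hx | hx <;> rcases Tr_mem hn y with hy | hy
  · simp [hx, hy]
  · simp [hx, hy]
  · simp [hx, hy]
  · rw [hx, hy, CharTwo.add_self_eq_zero]
    simp

open Polynomial in
theorem exists_Tr {n : ℕ} (hn : Fintype.card K = 2 ^ n) : ∃ x : K, Tr n x ≠ 0 := by
  classical
  by_contra hcon
  push Not at hcon
  have hn0 : n ≠ 0 := by
    rintro rfl
    have := Fintype.one_lt_card (α := K)
    omega
  obtain ⟨m, rfl⟩ := Nat.exists_eq_succ_of_ne_zero hn0
  let p : K[X] := ∑ i ∈ Finset.range (m + 1), X ^ (2 ^ i)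
  have hp : p.Monic ∧ p.natDegree = 2 ^ m := by
    have hd : (∑ i ∈ Finset.range m, (X : K[X]) ^ (2 ^ i)).degree < ((2 ^ m : ℕ) : WithBot ℕ) := by
      refine lt_of_le_of_lt (Polynomial.degree_sum_le _ _) ?_
      rw [Finset.sup_lt_iff (WithBot.bot_lt_coe _)]
      intro i hi
      rw [Polynomial.degree_X_pow]
      have := Nat.pow_lt_pow_right (by norm_num : 1 < 2) (Finset.mem_range.mp hi)
      exact_mod_cast this
    have h1 : p = X ^ (2 ^ m) + ∑ i ∈ Finset.range m, (X : K[X]) ^ (2 ^ i) := by
      show ∑ i ∈ Finset.range (m + 1), X ^ (2 ^ i) = _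
      rw [Finset.sum_range_succ, add_comm]
    rw [h1]
    exact ⟨Polynomial.monic_X_pow_add (by simpa using hd),
      Polynomial.natDegree_eq_of_degree_eq_some (by
        rw [Polynomial.degree_add_eq_left_of_degree_lt (by simpa using hd),
          Polynomial.degree_X_pow])⟩
  have hroots : ∀ x : K, p.IsRoot x := by
    intro x
    have h1 := hcon x
    unfold Tr at h1
    show p.eval x = 0
    show (∑ i ∈ Finset.range (m + 1), (X : K[X]) ^ (2 ^ i)).eval x = 0
    rw [Polynomial.eval_finsetSum]
    simpa using h1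
  have h2 : Fintype.card K ≤ p.natDegree := by
    rw [← Finset.card_univ]
    apply Polynomial.card_le_degree_of_subset_roots
    intro x _
    rw [Polynomial.mem_roots hp.1.ne_zero]
    exact hroots x
  rw [hn, hp.2, pow_succ] at h2
  have := Nat.pos_of_ne_zero (pow_ne_zero m (two_ne_zero (α := ℕ)))
  omega

theorem isChar {n : ℕ} (hn : Fintype.card K = 2 ^ n) :
    IsChar (fun x : K => ((sgn n x : ℤ) : ℂ)) := by
  refine ⟨?_, ?_, ?_, ?_⟩
  · intro x y
    rw [sgn_add hn]
    push_cast
    rfl
  · simp [sgn, Tr]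
  · intro a ha
    obtain ⟨x0, hx0⟩ := exists_Tr (K := K) hn
    have h1 : ∑ y : K, sgn n (a * y) = ∑ y : K, sgn n (a * (y + a⁻¹ * x0)) :=
      (Equiv.sum_comp (Equiv.addRight (a⁻¹ * x0)) (fun y => sgn n (a * y))).symm
    have h2 : ∀ y : K, sgn n (a * (y + a⁻¹ * x0)) = - sgn n (a * y) := by
      intro y
      have h3 : a * (y + a⁻¹ * x0) = a * y + x0 := by field_simp
      rw [h3, sgn_add hn]
      have h4 : sgn n x0 = -1 := by simp [sgn, hx0]
      rw [h4]; ring
    simp only [h2, Finset.sum_neg_distrib] at h1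
    have h5 : ∑ y : K, sgn n (a * y) = 0 := by omega
    have h6 := congrArg (fun t : ℤ => (t : ℂ)) h5
    simpa using h6
  · intro x
    unfold sgn
    rw [Tr_sq' hn]

end

/-- **Q1.** For every `n`, every `k` coprime to `n` and every field `K` with `2 ^ n` elements
the two sums over the nonzero elements agree. -/
theorem result (n k : ℕ) (hk : Nat.Coprime k n) (K : Type) [Field K] [Fintype K] [DecidableEq K]
    (hn : Fintype.card K = 2 ^ n) :
    ∑ x : Kˣ, sgn n ((x : K) ^ (2 ^ k + 1) + (x : K)⁻¹) =
      ∑ x : Kˣ, sgn n ((x : K) ^ 3 + (x : K)⁻¹) := by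
  classical
  have hchar : CharP K 2 := by
    have hn0 : n ≠ 0 := by
      rintro rfl
      have := Fintype.one_lt_card (α := K)
      omega
    obtain ⟨p, hp⟩ := CharP.exists K
    have := hp
    obtain ⟨m, hpp, hc⟩ := FiniteField.card K p
    rw [hn] at hc
    have h2 : p ∣ 2 ^ n := by rw [hc]; exact dvd_pow_self p m.ne_zero
    have h3 := (Nat.prime_dvd_prime_iff_eq hpp Nat.prime_two).mp (hpp.dvd_of_dvd_pow h2)
    rw [← h3]; exact hp
  by_cases hq : 2 < Fintype.card K
  · have key := universal (F := K) (isChar hn) hn hq hk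
    have hsum : ∀ m : ℕ, (∑ y : K, if y = 0 then 0 else
        ((sgn n (y⁻¹ + y * y ^ (2 ^ m)) : ℤ) : ℂ)) =
        ((∑ x : Kˣ, sgn n ((x : K) ^ (2 ^ m + 1) + (x : K)⁻¹) : ℤ) : ℂ) := by
      intro m
      rw [← Finset.sum_erase_add _ _ (Finset.mem_univ (0 : K))]
      simp only [if_true, add_zero]
      push_cast
      symm
      refine Finset.sum_bij' (fun x _ => (x : K))
        (fun y hy => Units.mk0 y (Finset.mem_erase.mp hy).1) ?_ ?_ ?_ ?_ ?_
      · intro x _
        exact Finset.mem_erase.mpr ⟨x.ne_zero, Finset.mem_univ _⟩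
      · intro y _
        exact Finset.mem_univ _
      · intro x _
        ext; rfl
      · intro y _
        rfl
      · intro x _
        rw [if_neg x.ne_zero, pow_succ', add_comm]
    have h1 := hsum k
    have h2 := hsum 1
    simp only [pow_one] at h2
    rw [h1, h2] at key
    have h3 := Int.cast_injective key
    simpa using h3
  · have hone : ∀ x : Kˣ, (x : K) = 1 := by
      intro x
      have hcard : Fintype.card K = 2 := by
        have := Fintype.one_lt_card (α := K)
        omega
      have h1 := FiniteField.pow_card_sub_one_eq_one (x : K) x.ne_zero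
      rw [hcard] at h1
      simpa using h1
    apply Finset.sum_congr rfl
    intro x _
    rw [hone x, one_pow, one_pow]

end Pool.Agent.Results.MP_2c585b_nt.CubeIdentity
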